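import Pool.Agent.N859.QW.Fin

/-!
# A crossed product of the hyperfinite II₁ factor by a residually finite group which is not QWEP

There are a countable residually finite (hence hyperlinear) group `G` and a trace preserving action
of `G` on the hyperfinite II₁ factor `R` such that the von Neumann algebra crossed product `R ⋊ G` is
not QWEP.

The proof. There is a residually finite group `G` with property (T), a subgroup `K` with property
(T), a generating set of `G` consisting of elements `g` with `K ≤ g K g⁻¹`, and such a `g` for which
the inclusion is proper. In a hyperlinear group containing `G` every element commuting with `K`
commutes with `g K g⁻¹`. Let `X = (G / K) × ℕ`; the group `S(X)` of finitely supported permutations of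
`X` is locally finite and has infinite conjugacy classes, so `R = L(S(X))` is the hyperfinite factor,
`G` acts on it by permutations of `X`, and `R ⋊ G = L(S(X) ⋊ G)`. The transposition of the points
`(K, 0)` and `(K, 1)` commutes with `K` and not with `g K g⁻¹`, so `S(X) ⋊ G` is not hyperlinear. On the
other hand a group is hyperlinear if its von Neumann algebra is QWEP: the weak expectation gives an
invariant state on all bounded operators which extends the trace.
-/

set_option autoImplicit false

namespace Pool.Agent.Results.MP_47effe_an.NonQWEPCrossedProduct

open Pool.Agent.N859.QX
open Pool.Agent.H21R2 (IsHyperlinear)

/-- **There is a trace preserving action of a hyperlinear, even residually finite, group on the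
hyperfinite II₁ factor whose crossed product is not QWEP.** -/
theorem result : ∃ (G : Type) (_ : Group G), Countable G ∧ IsRF G ∧ IsHyperlinear G ∧
    HasNonQWEP G :=
  Pool.Agent.N859.QW.main'

end Pool.Agent.Results.MP_47effe_an.NonQWEPCrossedProduct
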